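import Pool.Agent.N332.GK.Defs
import Pool.Agent.N803.LS.Tang

/-!
# GK/RO: assembly of the real inequality for general k
-/

set_option autoImplicit false

namespace Pool.Agent.N459.GK

open Pool.Agent.N356.SP Pool.Agent.N332.GK
open scoped Topology

/-- the statement of R2 -/
def HR2 : Prop := ∀ {e l : ℝ}, 0 ≤ e → e ≤ 1 / 6 → 0 ≤ l → l ≤ 5 / 4 →
    Nk e (√l * (1 + e * l / 2)) ≤ Real.exp (l - e ^ 2 * l ^ 3 / 6)

/-- the statement of C6 -/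
def HC6 : Prop := ∀ {Y Y1 η s : ℝ}, 0 ≤ Y → Y ≤ Y1 → Y1 ≤ 5 / 24 → 0 < η →
    η ≤ 1 / 6 → 0 ≤ s → 2 * s + η ≤ 1 - 3 / 10 * Y1 →
    (1 + (1 - η) * Y) ^ ((1 / 2 + s) / (1 - η)) * Real.exp ((Y - Y ^ 3 / 6) / 2) ≤
      (1 - η * Y) ^ (-(s / η)) + Y * (1 + Y / 2)

/-- the statement of G1 -/
def HG1 : Prop := ∀ {k : ℕ}, 6 ≤ k → (k : ℝ) + 1 ≤ ck k

/-- the statement of G4 -/
def HG4 : Prop := ∀ {k n : ℕ}, 6 ≤ k → k ≤ n → ∀ {b : ℝ}, (n : ℝ) ^ b = ck k →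
    Good' n b (ck k) ∧ (1 - 1 / (n : ℝ)) * b ≤ 1 - 3 / (8 * (k : ℝ)) ∧
      (1 + 5 / (4 * (k : ℝ)) * (1 - 1 / (n : ℝ))) ^ (1 + b) ≤ 5 / (4 * (k : ℝ)) * ck k

theorem Phi_nonneg {e s : ℝ} (he0 : 0 ≤ e) (he1 : e ≤ 1 / 6) (hs : 0 ≤ s) : 0 ≤ Phi e s := by
  unfold Phi Kb
  have h1 : 0 ≤ 1 - e := by linarith
  have h2 : 0 < 2 - e := by linarith
  have h3 : 0 ≤ 2 - 3 * e := by linarith
  have h4 : 0 ≤ 2 - 7 / 4 * e := by linarith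
  have h5 : 0 ≤ 1 - 2 * e := by linarith
  have h6 : 0 ≤ 1 - 5 / 2 * e := by linarith
  have h7 : 0 ≤ 1 - 3 * e := by linarith
  positivity

theorem Nk_nonneg {e s : ℝ} (he0 : 0 ≤ e) (he1 : e ≤ 1 / 6) (hs : 0 ≤ s) : 0 ≤ Nk e s := by
  unfold Nk
  have := Phi_nonneg he0 he1 hs
  positivity

theorem sqrt_eq {k : ℕ} (hk : 6 ≤ k) (hc0 : 0 < ck k) {Y : ℝ} (hY0 : 0 ≤ Y) :
    √(k * ck k) * (√(Y / ck k) * (1 + Y / 2)) = √(k * Y) * (1 + Y / 2) := by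
  have hk0 : (0 : ℝ) < k := by exact_mod_cast (by omega : 0 < k)
  rw [← mul_assoc, ← Real.sqrt_mul (by positivity)]
  congr 2
  field_simp

/-- the bound for `Bk` at the point of tangency -/
theorem B_le (R2 : HR2) {k : ℕ} (hk : 6 ≤ k) (hc0 : 0 < ck k) {Y : ℝ} (hY0 : 0 ≤ Y)
    (hY1 : Y ≤ 5 / (4 * (k : ℝ))) :
    Bk k (√(Y / ck k) * (1 + Y / 2)) ≤ Real.exp ((Y - Y ^ 3 / 6) / 2) := by
  have hk6 : (6 : ℝ) ≤ k := by exact_mod_cast hk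
  have hk0 : (0 : ℝ) < k := by linarith
  have he1 : 1 / (k : ℝ) ≤ 1 / 6 := one_div_le_one_div_of_le (by norm_num) hk6
  have hl1 : (k : ℝ) * Y ≤ 5 / 4 := by
    rw [le_div_iff₀ (by positivity)] at hY1
    linarith
  have h1 := R2 (e := 1 / (k : ℝ)) (l := k * Y) (by positivity) he1 (by positivity) hl1
  have h2 : 1 + 1 / (k : ℝ) * (k * Y) / 2 = 1 + Y / 2 := by
    field_simp
  have h3 : (k : ℝ) * Y - (1 / (k : ℝ)) ^ 2 * (k * Y) ^ 3 / 6 = k * (Y - Y ^ 3 / 6) := by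
    field_simp
  rw [h2, h3] at h1
  unfold Bk
  rw [sqrt_eq hk hc0 hY0]
  have h4 : 0 ≤ Nk (1 / (k : ℝ)) (√(k * Y) * (1 + Y / 2)) :=
    Nk_nonneg (by positivity) he1 (by positivity)
  refine (Real.rpow_le_rpow h4 h1 (by positivity)).trans (le_of_eq ?_)
  rw [← Real.exp_mul]
  congr 1
  field_simp

theorem t_le {k : ℕ} (hk : 6 ≤ k) (hc0 : 0 < ck k) {Y : ℝ} (hY0 : 0 ≤ Y)
    (hY1 : Y ≤ 5 / (4 * (k : ℝ))) : √(Y / ck k) * (1 + Y / 2) ≤ tk k := by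
  have hk6 : (6 : ℝ) ≤ k := by exact_mod_cast hk
  have hk0 : (0 : ℝ) < k := by linarith
  have hY2 : Y ≤ 5 / 24 := by
    refine hY1.trans ?_
    rw [div_le_div_iff₀ (by positivity) (by norm_num)]
    linarith
  have hl1 : (k : ℝ) * Y ≤ 5 / 4 := by
    rw [le_div_iff₀ (by positivity)] at hY1
    linarith
  have hs : 0 < √(k * ck k) := Real.sqrt_pos.2 (by positivity)
  unfold tk
  rw [le_div_iff₀ hs, mul_comm, sqrt_eq hk hc0 hY0]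
  have h1 : √((k : ℝ) * Y) ^ 2 = k * Y := Real.sq_sqrt (by positivity)
  have h2 : (√((k : ℝ) * Y) * (1 + Y / 2)) ^ 2 ≤ (31 / 25) ^ 2 := by
    rw [mul_pow, h1]
    have h3 : (1 + Y / 2) ^ 2 ≤ (53 / 48) ^ 2 := pow_le_pow_left₀ (by linarith) (by linarith) 2
    calc (k : ℝ) * Y * (1 + Y / 2) ^ 2 ≤ 5 / 4 * (53 / 48) ^ 2 :=
          mul_le_mul hl1 h3 (by positivity) (by norm_num)
      _ ≤ (31 / 25) ^ 2 := by norm_num
  exact le_of_pow_le_pow_left₀ (by norm_num) (by norm_num) h2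

/-- the case `Q < 1` -/
theorem lt_case (R2 : HR2) (HC : HC6) (G1 : HG1) (G4 : HG4) {k n : ℕ} (hk : 6 ≤ k) (hkn : k ≤ n) {b : ℝ}
    (hb : (n : ℝ) ^ b = ck k) {φ Q : ℝ} (hφ : 0 < φ) (hQ0 : 0 < Q) (hQ1 : Q < 1)
    (H : ∀ t, 0 ≤ t → t ≤ tk k → √φ + t * √Q ≤ Bk k t) {u : ℝ} (hu0 : 0 ≤ u) (hu1 : u ≤ 1) :
    φ * (1 - u) ^ ((n : ℝ) * b) ≤ (1 - (Q * u ^ b) ^ (1 / (1 + b))) ^ (1 + b) := by
  obtain ⟨hG, hb2, hb3⟩ := G4 hk hkn hb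
  have hk6 : (6 : ℝ) ≤ k := by exact_mod_cast hk
  have hk0 : (0 : ℝ) < k := by linarith
  have hc0 : 0 < ck k := by linarith [G1 hk]
  have hb0 := hG.hβ
  have hn3 : (6 : ℝ) ≤ n := by exact_mod_cast hk.trans hkn
  have hn0 : (0 : ℝ) < n := by linarith
  obtain ⟨Y, hY0, hpY, hY⟩ := Pool.Agent.N803.LS.exists_y' hG hQ0 hQ1
  have hη0 : 0 < 1 / (n : ℝ) := by positivity
  have hη3 : 1 / (n : ℝ) ≤ 1 / 6 := one_div_le_one_div_of_le (by norm_num) hn3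
  have hY10 : 0 < 5 / (4 * (k : ℝ)) := by positivity
  have hY124 : 5 / (4 * (k : ℝ)) ≤ 5 / 24 := by
    rw [div_le_div_iff₀ (by positivity) (by norm_num)]
    linarith
  have hY1 : Y < 5 / (4 * (k : ℝ)) := by
    by_contra hcon
    push Not at hcon
    have h1 := (Pool.Agent.N803.LS.sign_y' hG hQ0 hQ1 hY0 hpY hY).1 (5 / (4 * (k : ℝ))) hY10.le hcon
    rw [mul_comm (1 - 1 / (n : ℝ)) (5 / (4 * (k : ℝ)))] at h1
    have h2 : Q * (1 + 5 / (4 * (k : ℝ)) * (1 - 1 / (n : ℝ))) ^ (1 + b) ≤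
        Q * (5 / (4 * (k : ℝ)) * ck k) := mul_le_mul_of_nonneg_left hb3 hQ0.le
    have h3 : 0 < 5 / (4 * (k : ℝ)) * ck k := mul_pos hY10 hc0
    nlinarith
  set η : ℝ := 1 / (n : ℝ) with hη
  set s : ℝ := ((1 - η) * b - η) / 2 with hs
  have hnη : (n : ℝ) * η = 1 := by rw [hη]; field_simp
  have hs0 : 0 ≤ s := by
    have h1 := hG.hnp
    have h2 : η * 1 ≤ η * (((n : ℝ) - 1) * b) := mul_le_mul_of_nonneg_left h1 hη0.le
    have h3 : η * (((n : ℝ) - 1) * b) = (1 - η) * b := by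
      linear_combination b * hnη
    rw [hs]
    linarith
  have hs1 : 2 * s + η ≤ 1 - 3 / 10 * (5 / (4 * (k : ℝ))) := by
    have h1 : 3 / 10 * (5 / (4 * (k : ℝ))) = 3 / (8 * (k : ℝ)) := by
      field_simp
      norm_num
    rw [hs, h1]
    linarith
  have hC := HC hY0.le hY1.le hY124 hη0 hη3 hs0 hs1
  set P : ℝ := 1 + (1 - η) * Y with hP
  have hP0 : 0 < P := by
    have : 0 ≤ (1 - η) * Y := mul_nonneg (by linarith) hY0.le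
    linarith
  have e1 : (1 / 2 + s) / (1 - η) = (1 + b) / 2 := by
    rw [div_eq_iff (by linarith), hs]
    ring
  have e2 : -(s / η) = (1 - ((n : ℝ) - 1) * b) / 2 := by
    have h1 : s / η = s * n := by
      rw [div_eq_iff hη0.ne', mul_assoc, hnη, mul_one]
    rw [h1, hs]
    linear_combination (-(1 / 2 : ℝ) * (-b - 1)) * hnη
  rw [e1, e2] at hC
  set W : ℝ := P ^ ((1 + b) / 2) with hW
  have hW0 : 0 < W := Real.rpow_pos_of_pos hP0 _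
  have hW2 : W ^ 2 = P ^ (1 + b) := by
    rw [hW, ← Real.rpow_natCast, ← Real.rpow_mul hP0.le]
    congr 1
    push_cast
    ring
  -- the product
  have hprod : √(Y / ck k) * (1 + Y / 2) * √Q * W = Y * (1 + Y / 2) := by
    have h1 : √Q * W = √(ck k * Y) := by
      have h2 : √Q * W = √(Q * W ^ 2) := by
        rw [Real.sqrt_mul hQ0.le, Real.sqrt_sq hW0.le]
      rw [h2, hW2, hY]
    have h3 : √(Y / ck k) * √(ck k * Y) = Y := by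
      rw [← Real.sqrt_mul (by positivity)]
      have h4 : Y / ck k * (ck k * Y) = Y ^ 2 := by field_simp
      rw [h4, Real.sqrt_sq hY0.le]
    calc √(Y / ck k) * (1 + Y / 2) * √Q * W = (1 + Y / 2) * (√(Y / ck k) * (√Q * W)) := by ring
      _ = (1 + Y / 2) * Y := by rw [h1, h3]
      _ = _ := by ring
  have hH := (H _ (by positivity) (t_le hk hc0 hY0.le hY1.le)).trans (B_le R2 hk hc0 hY0.le hY1.le)
  have hYη : 0 < 1 - Y / n := by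
    have h1 : Y / n = Y * η := by rw [hη]; ring
    rw [h1]
    nlinarith
  have e3 : 1 - η * Y = 1 - Y / n := by rw [hη]; ring
  rw [e3] at hC
  have hmain : √φ * W ≤ (1 - Y / n) ^ ((1 - ((n : ℝ) - 1) * b) / 2) := by
    have h1 := mul_le_mul_of_nonneg_right hH hW0.le
    have h2 : (√φ + √(Y / ck k) * (1 + Y / 2) * √Q) * W = √φ * W + Y * (1 + Y / 2) := by
      rw [add_mul, hprod]
    rw [h2] at h1
    linarith
  refine le_trans ?_ (Pool.Agent.N803.LS.min_u' hG hQ0 hQ1 hY0 hpY hY hu0 hu1)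
  apply mul_le_mul_of_nonneg_right _ (Real.rpow_nonneg (by linarith) _)
  have hq : (1 - Y / (n : ℝ)) / ((1 + (1 - 1 / (n : ℝ)) * Y) ^ ((1 + b) / 2) *
      (1 - Y / (n : ℝ)) ^ ((((n : ℝ) - 1) * b + 1) / 2)) =
      (1 - Y / n) ^ ((1 - ((n : ℝ) - 1) * b) / 2) / W := by
    have h1 : (1 - Y / (n : ℝ)) ^ ((1 - ((n : ℝ) - 1) * b) / 2) *
        (1 - Y / (n : ℝ)) ^ ((((n : ℝ) - 1) * b + 1) / 2) = 1 - Y / n := by
      rw [← Real.rpow_add hYη]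
      have : (1 - ((n : ℝ) - 1) * b) / 2 + (((n : ℝ) - 1) * b + 1) / 2 = 1 := by ring
      rw [this, Real.rpow_one]
    have h2 : 0 < (1 - Y / (n : ℝ)) ^ ((((n : ℝ) - 1) * b + 1) / 2) :=
      Real.rpow_pos_of_pos hYη _
    have h3 : (1 + (1 - 1 / (n : ℝ)) * Y) ^ ((1 + b) / 2) = W := by rw [hW, hP, hη]
    rw [h3, div_eq_div_iff (by positivity) hW0.ne']
    nth_rewrite 1 [← h1]
    ring
  rw [hq]
  have h5 : √φ ≤ (1 - Y / n) ^ ((1 - ((n : ℝ) - 1) * b) / 2) / W := by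
    rw [le_div_iff₀ hW0]
    exact hmain
  calc φ = √φ ^ 2 := (Real.sq_sqrt hφ.le).symm
    _ ≤ _ := pow_le_pow_left₀ (Real.sqrt_nonneg _) h5 2

/-- RO (from R2, C6, G1, G4 as hypotheses) -/
theorem realOK
    (R2 : ∀ {e l : ℝ}, 0 ≤ e → e ≤ 1 / 6 → 0 ≤ l → l ≤ 5 / 4 →
      Nk e (√l * (1 + e * l / 2)) ≤ Real.exp (l - e ^ 2 * l ^ 3 / 6))
    (curve6 : ∀ {Y Y1 η s : ℝ}, 0 ≤ Y → Y ≤ Y1 → Y1 ≤ 5 / 24 → 0 < η →
      η ≤ 1 / 6 → 0 ≤ s → 2 * s + η ≤ 1 - 3 / 10 * Y1 →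
      (1 + (1 - η) * Y) ^ ((1 / 2 + s) / (1 - η)) * Real.exp ((Y - Y ^ 3 / 6) / 2) ≤
        (1 - η * Y) ^ (-(s / η)) + Y * (1 + Y / 2))
    (ck_ge : ∀ {k : ℕ}, 6 ≤ k → (k : ℝ) + 1 ≤ ck k)
    (goodk : ∀ {k n : ℕ}, 6 ≤ k → k ≤ n → ∀ {b : ℝ}, (n : ℝ) ^ b = ck k →
      Good' n b (ck k) ∧ (1 - 1 / (n : ℝ)) * b ≤ 1 - 3 / (8 * (k : ℝ)) ∧
        (1 + 5 / (4 * (k : ℝ)) * (1 - 1 / (n : ℝ))) ^ (1 + b) ≤ 5 / (4 * (k : ℝ)) * ck k)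
    {k n : ℕ} (hk : 6 ≤ k) (hkn : k ≤ n) {b : ℝ} (hb : (n : ℝ) ^ b = ck k) :
    RealOK n b (Bk k) (tk k) := by
  intro φ Q hφ hQ0 hQ1 H u hu0 hu1
  rcases hQ1.eq_or_lt with rfl | hlt
  · have hb0 : 0 < b := (goodk hk hkn hb).1.hβ
    have hev : ∀ Q' ∈ Set.Ioo (0:ℝ) 1,
        φ * (1 - u) ^ ((n : ℝ) * b) ≤ (1 - (Q' * u ^ b) ^ (1 / (1 + b))) ^ (1 + b) := by
      intro Q' hQ'
      refine lt_case R2 curve6 ck_ge goodk hk hkn hb hφ hQ'.1 hQ'.2 (fun t ht0 ht1 => ?_) hu0 hu1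
      have h1 := H t ht0 ht1
      have h2 : √Q' ≤ √1 := Real.sqrt_le_sqrt hQ'.2.le
      have h3 := mul_le_mul_of_nonneg_left h2 ht0
      linarith
    have hc : ContinuousAt (fun Q' : ℝ => (1 - (Q' * u ^ b) ^ (1 / (1 + b))) ^ (1 + b)) 1 := by
      refine ContinuousAt.rpow_const ?_ (Or.inr (by linarith))
      refine continuousAt_const.sub ?_
      exact ContinuousAt.rpow_const (by fun_prop) (Or.inr (by positivity))
    have ht : Filter.Tendsto (fun Q' : ℝ => (1 - (Q' * u ^ b) ^ (1 / (1 + b))) ^ (1 + b))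
        (𝓝[<] 1) (𝓝 ((1 - (1 * u ^ b) ^ (1 / (1 + b))) ^ (1 + b))) :=
      hc.tendsto.mono_left nhdsWithin_le_nhds
    refine ge_of_tendsto ht ?_
    filter_upwards [Ioo_mem_nhdsLT (zero_lt_one' ℝ)] with Q' hQ'
    exact hev Q' hQ'
  · exact lt_case R2 curve6 ck_ge goodk hk hkn hb hφ hQ0 hlt H hu0 hu1

end Pool.Agent.N459.GK
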